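import Pool.Agent.Helper43.QN.QSpec
import Pool.Agent.Helper58.AU.DD

/-!
PROJECT AUT (MP_19fde8_al, S00834), linear half of `F_even`: `V = Hom(W^15, F_2)` as a module for `O`.

* `endV`, `endVU` : the `O`-endomorphisms (automorphisms) of `V` are the transposes of matrices over `A0`;
* `invV`          : the invariant functionals of `V` are the evaluations at `E^15`;
* `JU`            : the map `U^15 → V`, image = functionals vanishing on `E^15`;
* `splitZ`        : `Z1 C V = (Z1 C U)^15`.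
-/

set_option autoImplicit false
set_option linter.unusedSectionVars false

namespace QE46

open QN43

variable {J B E W U O : Type}
    [AddCommGroup J] [Module (ZMod 2) J] [Module (ZMod 2)ᵐᵒᵖ J] [IsCentralScalar (ZMod 2) J]
    [Ring B] [AddCommGroup E] [Module (A0 J) E] [AddCommGroup W] [Module (A0 J) W]
    [AddCommGroup U] [Module B U] [Group O] [DistribMulAction O W] [DistribMulAction O U]
    {κ : A0 J →+* B} {inc : E →+ W} {jU : U →+ (W →+ ZMod 2)} {Φ : J ≃+ (Fin 15 → W)}
    {p : NN0 κ E →* O}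

/-! ### characteristic 2 -/

theorem one_add_one : (1 + 1 : A0 J) = 0 := by
  have h : (1 + 1 : ZMod 2) = 0 := by decide
  refine TrivSqZeroExt.ext ?_ ?_
  · rw [TrivSqZeroExt.fst_add, TrivSqZeroExt.fst_one, h, TrivSqZeroExt.fst_zero]
  · rw [TrivSqZeroExt.snd_add, TrivSqZeroExt.snd_one, add_zero, TrivSqZeroExt.snd_zero]

variable (J) in
theorem add_self {M : Type} [AddCommGroup M] [Module (A0 J) M] (w : M) : w + w = 0 := by
  have h : (1 + 1 : A0 J) • w = w + w := by rw [add_smul, one_smul]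
  rw [← h, one_add_one, zero_smul]

variable (J) in
theorem add_self_pi {M : Type} [AddCommGroup M] [Module (A0 J) M] (w : Fin 15 → M) : w + w = 0 := by
  funext i
  exact add_self J (w i)

/-! ### `DV` -/

theorem DV.ext' {φ ψ : DV W} (h : ∀ w, DV.ev φ w = DV.ev ψ w) : φ = ψ := by
  apply AddMonoidHom.ext
  exact h

theorem ev_add (φ ψ : DV W) (w : Fin 15 → W) : DV.ev (φ + ψ) w = DV.ev φ w + DV.ev ψ w := rfl

theorem ev_zero (w : Fin 15 → W) : DV.ev (0 : DV W) w = 0 := rfl

theorem ev_neg (φ : DV W) (w : Fin 15 → W) : DV.ev (-φ) w = -DV.ev φ w := rfl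

theorem ev_sub (φ ψ : DV W) (w : Fin 15 → W) : DV.ev (φ - ψ) w = DV.ev φ w - DV.ev ψ w := rfl

theorem ev_add' (φ : DV W) (v w : Fin 15 → W) : DV.ev φ (v + w) = DV.ev φ v + DV.ev φ w :=
  map_add (show (Fin 15 → W) →+ ZMod 2 from φ) v w

theorem ev_sub' (φ : DV W) (v w : Fin 15 → W) : DV.ev φ (v - w) = DV.ev φ v - DV.ev φ w :=
  map_sub (show (Fin 15 → W) →+ ZMod 2 from φ) v w

theorem ev_zero' (φ : DV W) : DV.ev φ (0 : Fin 15 → W) = 0 :=
  map_zero (show (Fin 15 → W) →+ ZMod 2 from φ)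

theorem ev_sum (φ : DV W) {α : Type} (s : Finset α) (f : α → Fin 15 → W) :
    DV.ev φ (∑ a ∈ s, f a) = ∑ a ∈ s, DV.ev φ (f a) :=
  map_sum (show (Fin 15 → W) →+ ZMod 2 from φ) f s

/-- Build an element of `DV W` from an additive map. -/
def DV.of (φ : (Fin 15 → W) →+ ZMod 2) : DV W := φ

@[simp] theorem DV.of_ev (φ : (Fin 15 → W) →+ ZMod 2) (w : Fin 15 → W) : DV.ev (DV.of φ) w = φ w := rfl

theorem dv_add_self (φ : DV W) : φ + φ = 0 := by
  apply DV.ext'
  intro w
  rw [ev_add, ev_zero]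
  exact CharTwo.add_self_eq_zero _

theorem ev_sep (h2 : ∀ w : W, w + w = 0) {v w : Fin 15 → W} (h : ∀ φ : DV W, DV.ev φ v = DV.ev φ w) : v = w :=
  QU58.sep (fun x => by funext i; exact h2 (x i)) h

theorem finite_DV [Finite W] : Finite (DV W) := QU58.finite_dual (P := Fin 15 → W)

section
variable {C : Type} [Group C] (q : C →* O) [DistribMulAction C W] [DistribMulAction C U]

theorem smul_pi (hW : ∀ (c : C) (w : W), c • w = q c • w) (c : C) (w : Fin 15 → W) : c • w = q c • w := by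
  funext i
  exact hW c (w i)

/-! ### matrices over `A0` -/

/-- `mact` on `W^15` is faithful. -/
theorem mact_inj (h : GFacts κ inc jU Φ p) {m m' : Mt (A0 J)}
    (e : ∀ w : Fin 15 → W, mact m w = mact m' w) : m = m' := by
  ext1 i j
  have h1 : ∀ w : W, (m i j - m' i j) • w = 0 := by
    intro w
    have h2 := congrFun (e (Pi.single j w)) i
    rw [mact_apply, mact_apply] at h2
    have h3 : ∀ n : Mt (A0 J), ∑ l, n i l • (Pi.single j w : Fin 15 → W) l = n i j • w := by
      intro n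
      rw [Finset.sum_eq_single j]
      · rw [Pi.single_eq_same]
      · intro l _ hl
        rw [Pi.single_eq_of_ne hl, smul_zero]
      · intro hj
        exact absurd (Finset.mem_univ j) hj
    rw [h3, h3] at h2
    rw [sub_smul, h2, sub_self]
  exact sub_eq_zero.1 (h.faithW _ h1)

theorem mact_smul_O (h : GFacts κ inc jU Φ p) (o : O) (m : Mt (A0 J)) (w : Fin 15 → W) :
    mact m (o • w) = o • mact m w := by
  funext i
  rw [Pi.smul_apply, mact_apply, mact_apply, Finset.smul_sum]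
  refine Finset.sum_congr rfl fun j _ => ?_
  rw [h.commW, Pi.smul_apply]

/-- The additive endomorphisms of `W^15` commuting with `O` are matrices over `A0`. -/
theorem end_pi (h : GFacts κ inc jU Φ p) (G : (Fin 15 → W) →+ (Fin 15 → W))
    (hG : ∀ (o : O) (w : Fin 15 → W), G (o • w) = o • G w) :
    ∃ m : Mt (A0 J), ∀ w, G w = mact m w := by
  classical
  have h1 : ∀ i j : Fin 15, ∃ a : A0 J, ∀ w : W, G (Pi.single j w) i = a • w := by
    intro i j
    refine h.endW (((Pi.evalAddMonoidHom (fun _ : Fin 15 => W) i).comp G).comp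
      (AddMonoidHom.single (fun _ : Fin 15 => W) j)) ?_
    intro o w
    show G (Pi.single j (o • w)) i = o • G (Pi.single j w) i
    have h2 : (Pi.single j (o • w) : Fin 15 → W) = o • Pi.single j w := by
      funext l
      by_cases hl : l = j
      · subst hl
        rw [Pi.single_eq_same, Pi.smul_apply, Pi.single_eq_same]
      · rw [Pi.single_eq_of_ne hl, Pi.smul_apply, Pi.single_eq_of_ne hl, smul_zero]
    rw [h2, hG]
    rfl
  choose a ha using h1
  refine ⟨Matrix.of a, fun w => ?_⟩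
  have h3 : w = ∑ j, Pi.single j (w j) := (Finset.univ_sum_single w).symm
  funext i
  rw [mact_apply]
  conv_lhs => rw [h3, map_sum, Finset.sum_apply]
  exact Finset.sum_congr rfl fun j _ => ha i j (w j)

/-! ### endomorphisms and invariant functionals of `V` -/

/-- (b) the endomorphisms of `V` commuting with `C` are transposes of matrices over `A0`. -/
theorem endV (h : GFacts κ inc jU Φ p) (hq : Function.Surjective q)
    (hW : ∀ (c : C) (w : W), c • w = q c • w) (g : DV W →+ DV W)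
    (hg : ∀ (c : C) (φ : DV W), g (c • φ) = c • g φ) :
    ∃ m : Mt (A0 J), ∀ (φ : DV W) (w : Fin 15 → W), DV.ev (g φ) w = DV.ev φ (mact m w) := by
  have := h.finW
  have h2 : ∀ x : Fin 15 → W, x + x = 0 := add_self_pi J
  obtain ⟨G, hG⟩ := QU58.transpose (P := Fin 15 → W) (Q := Fin 15 → W) h2 g
  have hG' : ∀ (φ : DV W) (w : Fin 15 → W), DV.ev (g φ) w = DV.ev φ (G w) := by
    intro φ w
    exact DFunLike.congr_fun (hG φ) w
  have h3 : ∀ (c : C) (w : Fin 15 → W), G (c • w) = c • G w := by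
    intro c w
    refine ev_sep (add_self J) fun φ => ?_
    have h4 := congrArg (fun ψ => DV.ev ψ w) (hg c⁻¹ φ)
    simp only [DV.smul_ev, hG', inv_inv] at h4
    exact h4.symm
  obtain ⟨m, hm⟩ := end_pi h G (by
    intro o w
    obtain ⟨c, rfl⟩ := hq o
    rw [← smul_pi q hW, h3, smul_pi q hW])
  exact ⟨m, fun φ w => by rw [hG', hm]⟩

/-- The action of `GL_15(A0)` on `V`: `φ ↦ φ ∘ m⁻¹`. -/
def gV : (Mt (A0 J))ˣ →* AddMonoid.End (DV W) where
  toFun m :=
    { toFun := fun φ => DV.of ((show (Fin 15 → W) →+ ZMod 2 from φ).comp (mact (M := W) ((m⁻¹ : (Mt (A0 J))ˣ) : Mt (A0 J))))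
      map_zero' := rfl
      map_add' := fun _ _ => rfl }
  map_one' := by
    apply AddMonoidHom.ext
    intro φ
    apply DV.ext'
    intro w
    show DV.ev φ (mact (((1 : (Mt (A0 J))ˣ)⁻¹ : (Mt (A0 J))ˣ) : Mt (A0 J)) w) = DV.ev φ w
    rw [inv_one, Units.val_one, mact_one_apply]
  map_mul' m n := by
    apply AddMonoidHom.ext
    intro φ
    apply DV.ext'
    intro w
    show DV.ev φ (mact (((m * n)⁻¹ : (Mt (A0 J))ˣ) : Mt (A0 J)) w) =
      DV.ev φ (mact ((n⁻¹ : (Mt (A0 J))ˣ) : Mt (A0 J)) (mact ((m⁻¹ : (Mt (A0 J))ˣ) : Mt (A0 J)) w))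
    rw [mul_inv_rev, Units.val_mul, mact_mul_apply]

theorem gV_ev (m : (Mt (A0 J))ˣ) (φ : DV W) (w : Fin 15 → W) :
    DV.ev (gV m φ) w = DV.ev φ (mact ((m⁻¹ : (Mt (A0 J))ˣ) : Mt (A0 J)) w) := rfl

theorem gV_mul_apply (m n : (Mt (A0 J))ˣ) (φ : DV W) : gV (m * n) φ = gV m (gV n φ) := by
  rw [map_mul]
  rfl

theorem gV_one_apply (φ : DV W) : gV (1 : (Mt (A0 J))ˣ) φ = φ := by
  rw [map_one]
  rfl

theorem gV_smul (h : GFacts κ inc jU Φ p) (hW : ∀ (c : C) (w : W), c • w = q c • w)
    (m : (Mt (A0 J))ˣ) (c : C) (φ : DV W) : gV m (c • φ) = c • gV m φ := by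
  apply DV.ext'
  intro w
  rw [gV_ev, DV.smul_ev, DV.smul_ev, gV_ev, smul_pi q hW, smul_pi q hW, mact_smul_O h]

/-- `gV` is injective. -/
theorem gV_inj (h : GFacts κ inc jU Φ p) {m n : (Mt (A0 J))ˣ} (e : ∀ φ : DV W, gV m φ = gV n φ) : m = n := by
  have h1 : m⁻¹ = n⁻¹ := by
    apply Units.ext
    refine mact_inj h fun w => ?_
    refine ev_sep (add_self J) fun φ => ?_
    rw [← gV_ev, ← gV_ev, e]
  exact inv_injective h1

/-- (b) the automorphisms of `V` commuting with `C` are the `gV m`. -/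
theorem endVU (h : GFacts κ inc jU Φ p) (hq : Function.Surjective q)
    (hW : ∀ (c : C) (w : W), c • w = q c • w) (g : DV W ≃+ DV W)
    (hg : ∀ (c : C) (φ : DV W), g (c • φ) = c • g φ) :
    ∃ m : (Mt (A0 J))ˣ, ∀ φ : DV W, g φ = gV m φ := by
  have hg' : ∀ (c : C) (φ : DV W), g.symm (c • φ) = c • g.symm φ := by
    intro c φ
    apply g.injective
    rw [hg, g.apply_symm_apply, g.apply_symm_apply]
  obtain ⟨m, hm⟩ := endV q h hq hW g.toAddMonoidHom hg
  obtain ⟨n, hn⟩ := endV q h hq hW g.symm.toAddMonoidHom hg'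
  have hm' : ∀ (φ : DV W) (w : Fin 15 → W), DV.ev (g φ) w = DV.ev φ (mact m w) := hm
  have hn' : ∀ (φ : DV W) (w : Fin 15 → W), DV.ev (g.symm φ) w = DV.ev φ (mact n w) := hn
  have e1 : m * n = 1 := by
    refine mact_inj h fun w => ?_
    refine ev_sep (add_self J) fun φ => ?_
    rw [mact_mul_apply, ← hm', ← hn', g.symm_apply_apply, mact_one_apply]
  have e2 : n * m = 1 := by
    refine mact_inj h fun w => ?_
    refine ev_sep (add_self J) fun φ => ?_
    rw [mact_mul_apply, ← hn', ← hm', g.apply_symm_apply, mact_one_apply]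
  refine ⟨(⟨m, n, e1, e2⟩ : (Mt (A0 J))ˣ)⁻¹, fun φ => ?_⟩
  apply DV.ext'
  intro w
  rw [gV_ev, hm', inv_inv]

/-- Evaluation of `V` at a vector of `E^15`. -/
def evE (inc : E →+ W) : (Fin 15 → E) →+ (DV W →+ ZMod 2) where
  toFun e :=
    { toFun := fun φ => DV.ev φ (fun i => inc (e i))
      map_zero' := rfl
      map_add' := fun _ _ => rfl }
  map_zero' := by
    ext φ
    show DV.ev φ (fun i => inc ((0 : Fin 15 → E) i)) = 0
    have : (fun i => inc ((0 : Fin 15 → E) i)) = 0 := by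
      funext i
      rw [Pi.zero_apply, map_zero, Pi.zero_apply]
    rw [this, ev_zero']
  map_add' e f := by
    ext φ
    show DV.ev φ (fun i => inc ((e + f) i)) = DV.ev φ (fun i => inc (e i)) + DV.ev φ (fun i => inc (f i))
    rw [← ev_add']
    congr 1
    funext i
    rw [Pi.add_apply, map_add, Pi.add_apply]

theorem evE_apply (inc : E →+ W) (e : Fin 15 → E) (φ : DV W) :
    evE inc e φ = DV.ev φ (fun i => inc (e i)) := rfl

theorem evE_injective (h : GFacts κ inc jU Φ p) {e f : Fin 15 → E} (he : evE inc e = evE inc f) : e = f := by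
  have h1 : (fun i => inc (e i)) = fun i => inc (f i) := by
    refine ev_sep (add_self J) fun φ => ?_
    exact DFunLike.congr_fun he φ
  funext i
  exact h.incInj (congrFun h1 i)

theorem evE_smul (h : GFacts κ inc jU Φ p) (hW : ∀ (c : C) (w : W), c • w = q c • w)
    (e : Fin 15 → E) (c : C) (φ : DV W) : evE inc e (c • φ) = evE inc e φ := by
  rw [evE_apply, evE_apply, DV.smul_ev]
  congr 1
  rw [smul_pi q hW]
  funext i
  exact (h.incRange _).1 ⟨e i, rfl⟩ _

/-- `(gV m)` acts on the invariant functionals as `m` on `E^15`. -/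
theorem evE_gV (h : GFacts κ inc jU Φ p) (m : (Mt (A0 J))ˣ) (e : Fin 15 → E) (φ : DV W) :
    evE inc e (gV m⁻¹ φ) = evE inc (mact (m : Mt (A0 J)) e) φ := by
  rw [evE_apply, evE_apply, gV_ev, inv_inv]
  congr 1
  funext i
  rw [mact_apply, mact_apply, map_sum]
  exact Finset.sum_congr rfl fun j _ => (h.incSmul _ _).symm

/-- (c) the `C`-invariant functionals of `V` are the evaluations at `E^15`. -/
theorem invV (h : GFacts κ inc jU Φ p) (hq : Function.Surjective q)
    (hW : ∀ (c : C) (w : W), c • w = q c • w) (lam : DV W →+ ZMod 2)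
    (hl : ∀ (c : C) (φ : DV W), lam (c • φ) = lam φ) :
    ∃ e : Fin 15 → E, lam = evE inc e := by
  have := h.finW
  have h2 : ∀ x : Fin 15 → W, x + x = 0 := add_self_pi J
  obtain ⟨x, hx⟩ := QU58.dd (P := Fin 15 → W) h2 lam
  have hx' : ∀ φ : DV W, lam φ = DV.ev φ x := hx
  have h3 : ∀ (o : O) (i : Fin 15), o • x i = x i := by
    intro o i
    obtain ⟨c, hc⟩ := hq o
    have h4 : c • x = x := by
      refine ev_sep (add_self J) fun φ => ?_
      have h5 := hl c⁻¹ φ
      rw [hx', hx', DV.smul_ev, inv_inv] at h5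
      exact h5
    have h6 := congrFun h4 i
    rw [Pi.smul_apply, hW, hc] at h6
    exact h6
  have h4 : ∀ i, ∃ e : E, inc e = x i := fun i => (h.incRange (x i)).2 fun o => h3 o i
  choose e he using h4
  refine ⟨e, ?_⟩
  ext φ
  rw [hx', evE_apply]
  congr 1
  funext i
  exact (he i).symm

/-! ### `U^15 → V` -/

/-- The map `U^15 → V`. -/
def JU (jU : U →+ (W →+ ZMod 2)) : (Fin 15 → U) →+ DV W where
  toFun u := DV.of
    { toFun := fun w => ∑ i, jU (u i) (w i)
      map_zero' := by simp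
      map_add' := fun v w => by simp [Finset.sum_add_distrib] }
  map_zero' := by
    apply DV.ext'
    intro w
    show ∑ i, jU ((0 : Fin 15 → U) i) (w i) = 0
    simp
  map_add' u v := by
    apply DV.ext'
    intro w
    show ∑ i, jU ((u + v) i) (w i) = ∑ i, jU (u i) (w i) + ∑ i, jU (v i) (w i)
    simp [Finset.sum_add_distrib]

theorem JU_ev (jU : U →+ (W →+ ZMod 2)) (u : Fin 15 → U) (w : Fin 15 → W) :
    DV.ev (JU jU u) w = ∑ i, jU (u i) (w i) := rfl

theorem JU_single (jU : U →+ (W →+ ZMod 2)) (u : Fin 15 → U) (i : Fin 15) (w : W) :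
    DV.ev (JU jU u) (Pi.single i w) = jU (u i) w := by
  rw [JU_ev, Finset.sum_eq_single i]
  · rw [Pi.single_eq_same]
  · intro l _ hl
    rw [Pi.single_eq_of_ne hl, map_zero]
  · intro hi
    exact absurd (Finset.mem_univ i) hi

theorem JU_injective (h : GFacts κ inc jU Φ p) : Function.Injective (JU jU) := by
  intro u v e
  funext i
  apply h.jInj
  ext w
  rw [← JU_single, ← JU_single, e]

theorem JU_smul (h : GFacts κ inc jU Φ p) (hW : ∀ (c : C) (w : W), c • w = q c • w)
    (hU : ∀ (c : C) (u : U), c • u = q c • u) (c : C) (u : Fin 15 → U) :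
    JU jU (c • u) = c • JU jU u := by
  apply DV.ext'
  intro w
  rw [DV.smul_ev, JU_ev, JU_ev]
  refine Finset.sum_congr rfl fun i _ => ?_
  rw [Pi.smul_apply, Pi.smul_apply, hU, h.jO, hW, map_inv]

/-- `gV m` on `U^15`. -/
theorem JU_mact (h : GFacts κ inc jU Φ p) (m : (Mt (A0 J))ˣ) (u : Fin 15 → U) :
    gV m (JU jU u) = JU jU (mact (kT κ ((m⁻¹ : (Mt (A0 J))ˣ) : Mt (A0 J))) u) := by
  apply DV.ext'
  intro w
  rw [gV_ev, JU_ev, JU_ev]
  have h1 : ∀ i, jU (u i) (mact ((m⁻¹ : (Mt (A0 J))ˣ) : Mt (A0 J)) w i) =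
      ∑ j, jU (u i) (((m⁻¹ : (Mt (A0 J))ˣ) : Mt (A0 J)) i j • w j) := by
    intro i
    rw [mact_apply, map_sum]
  have h2 : ∀ i, jU (mact (kT κ ((m⁻¹ : (Mt (A0 J))ˣ) : Mt (A0 J))) u i) (w i) =
      ∑ j, jU (u j) (((m⁻¹ : (Mt (A0 J))ˣ) : Mt (A0 J)) j i • w i) := by
    intro i
    rw [mact_apply, map_sum, AddMonoidHom.finsetSum_apply]
    refine Finset.sum_congr rfl fun j _ => ?_
    rw [kT_apply, h.jA]
  rw [Finset.sum_congr rfl fun i _ => h1 i, Finset.sum_congr rfl fun i _ => h2 i, Finset.sum_comm]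

/-- The image of `JU`. -/
theorem JU_range (h : GFacts κ inc jU Φ p) (φ : DV W)
    (hφ : ∀ e : Fin 15 → E, evE inc e φ = 0) : ∃ u, JU jU u = φ := by
  classical
  have h1 : ∀ i : Fin 15, ∃ u : U, jU u = (show (Fin 15 → W) →+ ZMod 2 from φ).comp
      (AddMonoidHom.single (fun _ : Fin 15 => W) i) := by
    intro i
    rw [h.jRange]
    intro x
    have h2 := hφ (Pi.single i x)
    rw [evE_apply] at h2
    have h3 : (fun j => inc ((Pi.single i x : Fin 15 → E) j)) = Pi.single i (inc x) := by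
      funext j
      by_cases hj : j = i
      · subst hj
        rw [Pi.single_eq_same, Pi.single_eq_same]
      · rw [Pi.single_eq_of_ne hj, Pi.single_eq_of_ne hj, map_zero]
    rw [h3] at h2
    exact h2
  choose u hu using h1
  refine ⟨u, ?_⟩
  apply DV.ext'
  intro w
  have h3 : w = ∑ j, Pi.single j (w j) := (Finset.univ_sum_single w).symm
  rw [JU_ev]
  conv_rhs => rw [h3, ev_sum]
  refine Finset.sum_congr rfl fun i _ => ?_
  rw [hu]
  rfl

/-! ### cocycles -/

/-- A homomorphism from a perfect group to `ZMod 2` vanishes. -/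
theorem hom_zero (hC : commutator C = ⊤) (f : C → ZMod 2) (hf : ∀ x y, f (x * y) = f x + f y) (c : C) :
    f c = 0 := by
  let F : C →* Multiplicative (ZMod 2) :=
    MonoidHom.mk' (fun c => Multiplicative.ofAdd (f c)) (fun x y => by rw [hf, ofAdd_add])
  have h1 : commutator C ≤ F.ker := Abelianization.commutator_subset_ker F
  rw [hC] at h1
  have h2 : F c = 1 := h1 (Subgroup.mem_top c)
  exact ofAdd_eq_one.1 h2

/-- `(Z1 C U)^15 → Z1 C V`. -/
def joinZ (h : GFacts κ inc jU Φ p) (hW : ∀ (c : C) (w : W), c • w = q c • w)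
    (hU : ∀ (c : C) (u : U), c • u = q c • u) : (Fin 15 → Z1 C U) →+ Z1 C (DV W) where
  toFun F := ⟨fun c => JU jU (fun i => (F i).1 c), by
    intro x y
    have h1 : (fun i => (F i).1 (x * y)) = (fun i => (F i).1 x) + x • (fun i => (F i).1 y) := by
      funext i
      exact (F i).2 x y
    show JU jU (fun i => (F i).1 (x * y)) = JU jU (fun i => (F i).1 x) + x • JU jU (fun i => (F i).1 y)
    rw [h1, map_add, JU_smul q h hW hU]⟩
  map_zero' := by
    apply Subtype.ext
    funext c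
    exact map_zero (JU jU)
  map_add' F G := by
    apply Subtype.ext
    funext c
    exact map_add (JU jU) (fun i => (F i).1 c) (fun i => (G i).1 c)

theorem joinZ_apply (h : GFacts κ inc jU Φ p) (hW : ∀ (c : C) (w : W), c • w = q c • w)
    (hU : ∀ (c : C) (u : U), c • u = q c • u) (F : Fin 15 → Z1 C U) (c : C) :
    (joinZ q h hW hU F).1 c = JU jU (fun i => (F i).1 c) := rfl

theorem joinZ_ev (h : GFacts κ inc jU Φ p) (hW : ∀ (c : C) (w : W), c • w = q c • w)
    (hU : ∀ (c : C) (u : U), c • u = q c • u) (F : Fin 15 → Z1 C U) (c : C) (w : Fin 15 → W) :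
    DV.ev ((joinZ q h hW hU F).1 c) w = ∑ i, jU ((F i).1 c) (w i) := rfl

theorem joinZ_injective (h : GFacts κ inc jU Φ p) (hW : ∀ (c : C) (w : W), c • w = q c • w)
    (hU : ∀ (c : C) (u : U), c • u = q c • u) : Function.Injective (joinZ q h hW hU) := by
  intro F G e
  funext i
  apply Subtype.ext
  funext c
  have h1 : JU jU (fun i => (F i).1 c) = JU jU (fun i => (G i).1 c) :=
    congrFun (congrArg Subtype.val e) c
  exact congrFun (JU_injective h h1) i

/-- Cocycles with values in `V` have values in the functionals vanishing on `E^15`. -/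
theorem z1_vanish (h : GFacts κ inc jU Φ p) (hC : commutator C = ⊤)
    (hW : ∀ (c : C) (w : W), c • w = q c • w) (f : Z1 C (DV W)) (c : C) (e : Fin 15 → E) :
    evE inc e (f.1 c) = 0 := by
  refine hom_zero hC (fun c => evE inc e (f.1 c)) (fun x y => ?_) c
  show evE inc e (f.1 (x * y)) = _
  rw [f.2 x y, map_add, evE_smul q h hW]

theorem joinZ_surjective (h : GFacts κ inc jU Φ p) (hC : commutator C = ⊤)
    (hW : ∀ (c : C) (w : W), c • w = q c • w)
    (hU : ∀ (c : C) (u : U), c • u = q c • u) : Function.Surjective (joinZ q h hW hU) := by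
  intro f
  have h1 : ∀ c, ∃ u : Fin 15 → U, JU jU u = f.1 c := fun c =>
    JU_range h (f.1 c) fun e => z1_vanish q h hC hW f c e
  choose u hu using h1
  refine ⟨fun i => ⟨fun c => u c i, ?_⟩, ?_⟩
  · intro x y
    have h2 : u (x * y) = u x + x • u y := by
      apply JU_injective h
      rw [hu, map_add, JU_smul q h hW hU, hu, hu, f.2 x y]
    show u (x * y) i = u x i + x • u y i
    rw [h2]
    rfl
  · apply Subtype.ext
    funext c
    exact hu c

/-- (a) `Z1 C V = (Z1 C U)^15`. -/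
noncomputable def splitZ (h : GFacts κ inc jU Φ p) (hC : commutator C = ⊤)
    (hW : ∀ (c : C) (w : W), c • w = q c • w)
    (hU : ∀ (c : C) (u : U), c • u = q c • u) : (Fin 15 → Z1 C U) ≃+ Z1 C (DV W) :=
  AddEquiv.ofBijective (joinZ q h hW hU) ⟨joinZ_injective q h hW hU, joinZ_surjective q h hC hW hU⟩

theorem splitZ_apply (h : GFacts κ inc jU Φ p) (hC : commutator C = ⊤)
    (hW : ∀ (c : C) (w : W), c • w = q c • w)
    (hU : ∀ (c : C) (u : U), c • u = q c • u) (F : Fin 15 → Z1 C U) (c : C) :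
    (splitZ q h hC hW hU F).1 c = JU jU (fun i => (F i).1 c) := rfl

/-- Equivariance for `C`. -/
theorem splitZ_smul (h : GFacts κ inc jU Φ p) (hC : commutator C = ⊤)
    (hW : ∀ (c : C) (w : W), c • w = q c • w)
    (hU : ∀ (c : C) (u : U), c • u = q c • u) (F : Fin 15 → Z1 C U) (c : C) :
    splitZ q h hC hW hU (fun i => c • F i) = c • splitZ q h hC hW hU F := by
  apply Subtype.ext
  funext x
  rw [splitZ_apply, Z1.smul_apply, splitZ_apply, ← JU_smul q h hW hU]
  rfl

/-- Equivariance for `GL_15(A0)`. -/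
theorem splitZ_gV [SMulCommClass C B U] (h : GFacts κ inc jU Φ p) (hC : commutator C = ⊤)
    (hW : ∀ (c : C) (w : W), c • w = q c • w)
    (hU : ∀ (c : C) (u : U), c • u = q c • u) (m : (Mt (A0 J))ˣ) (F : Fin 15 → Z1 C U) (x : C) :
    gV m ((splitZ q h hC hW hU F).1 x) =
      (splitZ q h hC hW hU (mact (kT κ ((m⁻¹ : (Mt (A0 J))ˣ) : Mt (A0 J))) F)).1 x := by
  rw [splitZ_apply, splitZ_apply, JU_mact h]
  refine congrArg _ ?_
  funext i
  rw [mact_apply, mact_apply]
  have h1 : ∀ (s : Finset (Fin 15)) (G : Fin 15 → Z1 C U),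
      (∑ j ∈ s, G j).1 x = ∑ j ∈ s, (G j).1 x := by
    intro s G
    induction s using Finset.cons_induction with
    | empty => simp
    | cons a s ha ih =>
      rw [Finset.sum_cons, Finset.sum_cons, ← ih]
      rfl
  rw [h1]
  rfl

end

end QE46
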